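import Mathlib

set_option autoImplicit false
open Filter Topology Set

namespace Pool.Agent.H.MP_75b936_an

/-- antiderivative from a base point -/
noncomputable def prim (p q : ℝ → ℝ) (a x : ℝ) : ℝ := ∫ t in a..x, p t / q t

/-- the denominator does not vanish between the base point and the point -/
def good (q : ℝ → ℝ) (a x : ℝ) : Prop := ∀ y ∈ uIcc a x, q y ≠ 0

lemma prim_deriv {p q : ℝ → ℝ} (hp : Continuous p) (hq : Continuous q) {a x : ℝ}
    (h : good q a x) : HasDerivAt (prim p q a) (p x / q x) x := by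
  have ho : IsOpen {y | q y ≠ 0} := isOpen_ne_fun hq continuous_const
  have hc : ∀ y ∈ {y | q y ≠ 0}, ContinuousAt (fun t => p t / q t) y := fun y hy =>
    hp.continuousAt.div hq.continuousAt hy
  exact intervalIntegral.integral_hasDerivAt_right
    (ContinuousOn.intervalIntegrable fun y hy => (hc y (h y hy)).continuousWithinAt)
    (ContinuousAt.stronglyMeasurableAtFilter ho hc x (h x right_mem_uIcc))
    (hc x (h x right_mem_uIcc))

lemma good_near {q : ℝ → ℝ} (hq : Continuous q) {a x : ℝ} (h : q x ≠ 0) :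
    ∀ᶠ z in 𝓝 x, good q a z ↔ good q a x := by
  obtain ⟨e, he, he'⟩ := Metric.eventually_nhds_iff.1 (hq.continuousAt.eventually_ne h)
  filter_upwards [Metric.ball_mem_nhds x he] with z hz
  have h1 : ∀ y ∈ uIcc x z, q y ≠ 0 := fun y hy =>
    he' (by
      have := Real.dist_left_le_of_mem_uIcc hy
      rw [dist_comm]
      exact this.trans_lt (by rw [dist_comm]; exact hz))
  constructor
  · intro hg y hy
    rcases uIcc_subset_uIcc_union_uIcc (b := z) hy with h2 | h2
    · exact hg y h2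
    · exact h1 y (uIcc_comm z x ▸ h2)
  · intro hg y hy
    rcases uIcc_subset_uIcc_union_uIcc (b := x) hy with h2 | h2
    · exact hg y h2
    · exact h1 y h2

open Classical in
/-- weighted antiderivative, or the weight itself -/
noncomputable def wt (p q : ℝ → ℝ) (a : ℝ) (b : Bool) (x : ℝ) : ℝ :=
  if good q a x then q x * ((if b then prim p q a x else 1) / (1 + prim p q a x ^ 2)) else 0

lemma wt_cont {p q : ℝ → ℝ} (hp : Continuous p) (hq : Continuous q) (a : ℝ) (b : Bool) :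
    Continuous (wt p q a b) := by
  refine continuous_iff_continuousAt.2 fun x => ?_
  by_cases h0 : q x = 0
  · have h1 : wt p q a b x = 0 := by simp [wt, h0]
    rw [ContinuousAt, h1]
    refine squeeze_zero_norm (a := fun z => |q z|) (fun z => ?_) ?_
    · unfold wt
      split_ifs
      · rw [norm_mul]
        refine mul_le_of_le_one_right (abs_nonneg _) ?_
        rw [Real.norm_eq_abs, abs_div, abs_of_pos (a := 1 + _) (by positivity),
          div_le_one (by positivity), abs_le]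
        constructor <;> nlinarith [sq_nonneg (prim p q a z + 1), sq_nonneg (prim p q a z - 1)]
      · rw [norm_mul]
        refine mul_le_of_le_one_right (abs_nonneg _) ?_
        rw [Real.norm_eq_abs, abs_of_pos (by positivity), div_le_one (by positivity)]
        nlinarith [sq_nonneg (prim p q a z)]
      · simp
    · simpa [h0] using (hq.abs.tendsto x)
  · by_cases h1 : good q a x
    · have h2 := (prim_deriv hp hq h1).continuousAt
      have h3 : ContinuousAt
          (fun z => q z * ((if b then prim p q a z else 1) / (1 + prim p q a z ^ 2))) x := by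
        refine hq.continuousAt.mul (ContinuousAt.div ?_ (by fun_prop) (by positivity))
        cases b
        · exact continuousAt_const
        · exact h2
      refine h3.congr ?_
      filter_upwards [good_near hq (a := a) h0] with z hz
      rw [wt, if_pos (hz.2 h1)]
    · refine (continuousAt_const (y := (0 : ℝ))).congr ?_
      filter_upwards [good_near hq (a := a) h0] with z hz
      rw [wt, if_neg (fun h => h1 (hz.1 h))]

lemma wt_congr {p q p' q' : ℝ → ℝ} {a x c : ℝ} (b : Bool) (ha : a ≤ c) (hx : x ≤ c)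
    (hp : ∀ y ≤ c, p y = p' y) (hq : ∀ y ≤ c, q y = q' y) : wt p q a b x = wt p' q' a b x := by
  have h0 : ∀ y ∈ uIcc a x, y ≤ c := fun y hy => hy.2.trans (sup_le ha hx)
  have h1 : prim p q a x = prim p' q' a x :=
    intervalIntegral.integral_congr fun y hy => by rw [hp y (h0 y hy), hq y (h0 y hy)]
  have h2 : good q a x ↔ good q' a x := forall₂_congr fun y hy => by rw [hq y (h0 y hy)]
  by_cases h3 : good q a x
  · rw [wt, wt, if_pos h3, if_pos (h2.1 h3), h1, hq x hx]
  · rw [wt, wt, if_neg h3, if_neg fun h => h3 (h2.2 h)]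

/-- staircase -/
noncomputable def T (x : ℝ) : ℝ := x / 2 - ‖((x / 2 : ℝ) : UnitAddCircle)‖

lemma T_cont : Continuous T := by
  unfold T
  exact Continuous.sub (by fun_prop) ((AddCircle.continuous_mk' 1).comp (by fun_prop)).norm

lemma T_eq (K : ℤ) {x : ℝ} (h1 : 2 * K ≤ x) (h2 : x ≤ 2 * K + 1) : T x = K := by
  have e : ((x / 2 : ℝ) : UnitAddCircle) = ((x / 2 - K : ℝ) : UnitAddCircle) := by
    rw [AddCircle.coe_sub]
    have : ((K : ℝ) : UnitAddCircle) = 0 := (AddCircle.coe_eq_zero_iff _).2 ⟨K, by simp⟩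
    rw [this, sub_zero]
  have e2 : |x / 2 - K| = x / 2 - K := abs_of_nonneg (by linarith)
  rw [T, e, (AddCircle.norm_coe_eq_abs_iff _ one_ne_zero).2 (by rw [e2, abs_one]; linarith), e2]
  ring

/-- slot number -/
noncomputable def Nf (t : ℝ) : ℝ := |4 * t + 1| + 5

lemma Nf_ge (t : ℝ) : 5 ≤ Nf t := by unfold Nf; linarith [abs_nonneg (4 * t + 1)]

/-- the placing map -/
noncomputable def hh (x : ℝ) : ℝ :=
  Nf (T x) + 1 / (Nf (T x) + 1) + (x - 2 * T x) / (Nf (T x) * (Nf (T x) + 1))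

lemma hh_cont : Continuous hh := by
  have h1 : Continuous fun x => Nf (T x) := by
    have := T_cont
    unfold Nf; fun_prop
  have h2 := T_cont
  refine (h1.add (continuous_const.div (by fun_prop) fun x => ?_)).add
    (Continuous.div (by fun_prop) (by fun_prop) fun x => ?_)
  · linarith [Nf_ge (T x)]
  · have := Nf_ge (T x); positivity

/-- cutoff -/
noncomputable def ps (x : ℝ) : ℝ := max 0 (Real.sin (Real.pi * x))

/-- tent -/
noncomputable def tent (z : ℝ) : ℝ := max 0 (z * (1 - z))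

lemma tent_ne {z : ℝ} (h : tent z ≠ 0) : 0 < z ∧ z < 1 := by
  have : 0 < z * (1 - z) := by
    by_contra h1
    exact h (max_eq_left (not_lt.1 h1))
  constructor <;> nlinarith

/-- local coordinate of a slot -/
noncomputable def zc (i : ℕ × ℤ) (y : ℝ) : ℝ :=
  (y - i.1 - Nf i.2 - 1 / (Nf i.2 + 1)) * (Nf i.2 * (Nf i.2 + 1))

lemma zc_mem {i : ℕ × ℤ} {y : ℝ} (h1 : 0 < zc i y) (h2 : zc i y < 1) :
    i.1 + Nf i.2 + 1 / (Nf i.2 + 1) < y ∧ y < i.1 + Nf i.2 + 1 / Nf i.2 := by
  have h5 := Nf_ge i.2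
  unfold zc at h1 h2
  generalize Nf i.2 = n at *
  have h3 : 0 < n * (n + 1) := by positivity
  refine ⟨by linarith [pos_of_mul_pos_of_pos_right' h1 h3], ?_⟩
  rw [← lt_div_iff₀ h3] at h2
  have : 1 / n = 1 / (n + 1) + 1 / (n * (n + 1)) := by field_simp
  linarith
where
  pos_of_mul_pos_of_pos_right' {a b : ℝ} (h : 0 < a * b) (hb : 0 < b) : 0 < a :=
    (mul_pos_iff_of_pos_right hb).1 h

lemma slot_unique {i j : ℕ × ℤ} {y : ℝ} (h1 : 0 < zc i y) (h2 : zc i y < 1) (h3 : 0 < zc j y)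
    (h4 : zc j y < 1) : i = j := by
  obtain ⟨a1, a2⟩ := zc_mem h1 h2
  obtain ⟨b1, b2⟩ := zc_mem h3 h4
  have e : ∀ K : ℤ, Nf K = ((|4 * K + 1| + 5 : ℤ) : ℝ) := fun K => by simp [Nf]
  have p1 := Nf_ge i.2
  have p2 := Nf_ge j.2
  have q1 : 1 / Nf i.2 < 1 := (div_lt_one (by linarith)).2 (by linarith)
  have q2 : 1 / Nf j.2 < 1 := (div_lt_one (by linarith)).2 (by linarith)
  have r1 : 0 < 1 / (Nf i.2 + 1) := by positivity
  have r2 : 0 < 1 / (Nf j.2 + 1) := by positivity
  have s1 : (i.1 : ℤ) + (|4 * i.2 + 1| + 5) < j.1 + (|4 * j.2 + 1| + 5) + 1 := by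
    have : (i.1 : ℝ) + Nf i.2 < j.1 + Nf j.2 + 1 := by linarith
    rw [e, e] at this; exact_mod_cast this
  have s2 : (j.1 : ℤ) + (|4 * j.2 + 1| + 5) < i.1 + (|4 * i.2 + 1| + 5) + 1 := by
    have : (j.1 : ℝ) + Nf j.2 < i.1 + Nf i.2 + 1 := by linarith
    rw [e, e] at this; exact_mod_cast this
  have s3 : (i.1 : ℝ) + Nf i.2 = j.1 + Nf j.2 := by
    rw [e, e]; exact_mod_cast (by omega)
  have t1 : |4 * i.2 + 1| + 5 < |4 * j.2 + 1| + 5 + 1 := by
    have : Nf i.2 < Nf j.2 + 1 :=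
      lt_of_one_div_lt_one_div (by linarith) (by linarith)
    rw [e, e] at this; exact_mod_cast this
  have t2 : |4 * j.2 + 1| + 5 < |4 * i.2 + 1| + 5 + 1 := by
    have : Nf j.2 < Nf i.2 + 1 :=
      lt_of_one_div_lt_one_div (by linarith) (by linarith)
    rw [e, e] at this; exact_mod_cast this
  have u1 : i.2 = j.2 := by
    rcases abs_cases (4 * i.2 + 1) with h | h <;> rcases abs_cases (4 * j.2 + 1) with h' | h' <;>
      omega
  refine Prod.ext ?_ u1
  rw [u1] at s1 s2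
  omega

/-- packing a sequence of functions into one -/
noncomputable def pack (A : ℕ → ℝ → ℝ) (y : ℝ) : ℝ :=
  ∑ᶠ i : ℕ × ℤ, tent (zc i y) * A i.1 (2 * i.2 + zc i y)

lemma pack_cont {A : ℕ → ℝ → ℝ} (hA : ∀ j, Continuous (A j)) : Continuous (pack A) := by
  refine continuous_finsum (fun i => ?_) fun y => ⟨Iio (y + 1), Iio_mem_nhds (by linarith), ?_⟩
  · have := hA i.1
    unfold tent zc; fun_prop
  · obtain ⟨n, hn⟩ := exists_nat_ge (y + 1)
    refine ((finite_Iic n).prod (finite_Icc (-(n : ℤ)) n)).subset ?_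
    rintro ⟨j, K⟩ ⟨z, hz, hz'⟩
    obtain ⟨a1, a2⟩ := tent_ne (left_ne_zero_of_mul hz)
    have a3 := (zc_mem a1 a2).1
    have a4 : 0 < 1 / (Nf K + 1) := by have := Nf_ge K; positivity
    have a5 : (j : ℝ) + (|4 * (K : ℝ) + 1| + 5) < n := by
      have : z < y + 1 := hz'
      simp only at a3
      unfold Nf at a3 a4
      linarith
    have a6 : (j : ℤ) + (|4 * K + 1| + 5) < n := by exact_mod_cast a5
    simp only [mem_prod, mem_Iic, mem_Icc]
    rcases abs_cases (4 * K + 1) with h | h <;> omega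

lemma pack_congr {A B : ℕ → ℝ → ℝ} {c y : ℝ} (hy : y ≤ c + 1)
    (h : ∀ j : ℕ, ∀ x, j ≤ c → x ≤ c → A j x = B j x) : pack A y = pack B y := by
  refine finsum_congr fun i => ?_
  by_cases h0 : tent (zc i y) = 0
  · simp [h0]
  obtain ⟨a1, a2⟩ := tent_ne h0
  have a3 := (zc_mem a1 a2).1
  have a4 : 0 < 1 / (Nf i.2 + 1) := by have := Nf_ge i.2; positivity
  have a5 := Nf_ge i.2
  have a6 : (0 : ℝ) ≤ i.1 := Nat.cast_nonneg _
  have a7 : 2 * (i.2 : ℝ) + 2 ≤ Nf i.2 := by
    unfold Nf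
    rcases abs_cases (4 * (i.2 : ℝ) + 1) with h | h <;> linarith
  rw [h _ _ (by linarith) (by linarith)]

lemma pack_zero (A : ℕ → ℝ → ℝ) {y : ℝ} (hy : y ≤ 0) : pack A y = 0 := by
  refine finsum_eq_zero_of_forall_eq_zero fun i => ?_
  by_cases h0 : tent (zc i y) = 0
  · simp [h0]
  obtain ⟨a1, a2⟩ := tent_ne h0
  have a3 := (zc_mem a1 a2).1
  have a4 : 0 < 1 / (Nf i.2 + 1) := by have := Nf_ge i.2; positivity
  have a5 := Nf_ge i.2
  have a6 : (0 : ℝ) ≤ i.1 := Nat.cast_nonneg _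
  linarith

lemma ps_ne {x : ℝ} (h : ps x ≠ 0) : ∃ K : ℤ, 2 * K < x ∧ x < 2 * K + 1 := by
  have h1 : 0 < Real.sin (Real.pi * x) := by
    by_contra h1
    exact h (max_eq_left (not_lt.1 h1))
  refine ⟨⌈x / 2⌉ - 1, by push_cast; linarith [Int.ceil_lt_add_one (x / 2)], ?_⟩
  by_contra h2
  push_cast at h2
  have h3 := Real.sin_nonpos_of_nonpos_of_neg_pi_le (x := Real.pi * x - ⌈x / 2⌉ * (2 * Real.pi))
    (by nlinarith [Int.le_ceil (x / 2), Real.pi_pos]) (by nlinarith [Real.pi_pos])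
  rw [Real.sin_sub_int_mul_two_pi] at h3
  linarith

/-- total weight -/
noncomputable def Ps (x : ℝ) : ℝ := ps x * tent (x - 2 * T x)

lemma decode (A : ℕ → ℝ → ℝ) (j : ℕ) (x : ℝ) : ps x * pack A (hh x + j) = Ps x * A j x := by
  by_cases h : ps x = 0
  · simp [Ps, h]
  obtain ⟨K, h1, h2⟩ := ps_ne h
  have e1 := T_eq K h1.le h2.le
  have e2 : zc (j, K) (hh x + j) = x - 2 * K := by
    have := Nf_ge K
    simp only [zc, hh, e1]
    field_simp
    ring
  rw [pack, finsum_eq_single _ (j, K), e2, Ps, e1, mul_assoc]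
  · simp
  · intro i hi
    by_contra h0
    obtain ⟨a1, a2⟩ := tent_ne (left_ne_zero_of_mul h0)
    exact hi (slot_unique a1 a2 (by rw [e2]; linarith) (by rw [e2]; linarith))

lemma Ps_nonneg (x : ℝ) : 0 ≤ Ps x := mul_nonneg (le_max_left _ _) (le_max_left _ _)

lemma Ps_pos (K : ℤ) {x : ℝ} (h1 : 2 * K < x) (h2 : x < 2 * K + 1) : 0 < Ps x := by
  rw [Ps, T_eq K h1.le h2.le]
  refine mul_pos (lt_max_of_lt_right ?_) (lt_max_of_lt_right (mul_pos (by linarith) (by linarith)))
  rw [← Real.sin_sub_int_mul_two_pi _ K]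
  exact Real.sin_pos_of_pos_of_lt_pi (by nlinarith [Real.pi_pos]) (by nlinarith [Real.pi_pos])

lemma Ps_sum (x : ℝ) : 0 < ∑ i ∈ Finset.range 4, Ps (x + i / 2) := by
  refine Finset.sum_pos' (fun i _ => Ps_nonneg _) ?_
  obtain ⟨K, i, hi, h⟩ : ∃ (K : ℤ) (i : ℕ), i < 4 ∧ ⌊2 * x⌋ + i = 4 * K + 1 :=
    ⟨(⌊2 * x⌋ + 2) / 4, (1 - ⌊2 * x⌋ + 4 * ((⌊2 * x⌋ + 2) / 4)).toNat, by omega, by omega⟩
  have h' : (⌊2 * x⌋ : ℝ) + i = 4 * K + 1 := by exact_mod_cast h
  refine ⟨i, Finset.mem_range.2 hi, Ps_pos K ?_ ?_⟩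
  · linarith [Int.floor_le (2 * x)]
  · linarith [Int.lt_floor_add_one (2 * x)]

lemma fixpt (Φ : (ℝ → ℝ) → ℝ → ℝ) (hc : ∀ g, Continuous g → Continuous (Φ g))
    (h0 : ∀ g y, y ≤ 0 → Φ g y = 0)
    (h1 : ∀ g g' c, (∀ y ≤ c, g y = g' y) → ∀ y ≤ c + 1, Φ g y = Φ g' y) :
    ∃ g, Continuous g ∧ Φ g = g := by
  let G : ℕ → ℝ → ℝ := fun n => Φ^[n] 0
  have Gs : ∀ n, G (n + 1) = Φ (G n) := fun n => Function.iterate_succ_apply' _ _ _
  have Gc : ∀ n, Continuous (G n) := fun n => by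
    induction n with
    | zero => exact continuous_const
    | succ n ih => rw [Gs]; exact hc _ ih
  have G1 : ∀ n : ℕ, ∀ y ≤ (n : ℝ), G n y = G (n + 1) y := fun n => by
    induction n with
    | zero => intro y hy; rw [Gs, h0 _ y (by simpa using hy)]; rfl
    | succ n ih =>
      intro y hy
      rw [Gs, Gs (n + 1)]
      exact h1 _ _ n ih y (by simpa using hy)
  have G2 : ∀ n m : ℕ, n ≤ m → ∀ y ≤ (n : ℝ), G n y = G m y := fun n m hm y hy => by
    induction m, hm using Nat.le_induction with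
    | base => rfl
    | succ m hm ih => rw [ih, G1 m y (hy.trans (by exact_mod_cast hm))]
  have G3 : ∀ n : ℕ, ∀ y ≤ (n : ℝ), G ⌈y⌉₊ y = G n y := fun n y hy =>
    G2 _ _ (Nat.ceil_le.2 hy) y (Nat.le_ceil y)
  refine ⟨fun y => G ⌈y⌉₊ y, continuous_iff_continuousAt.2 fun y => ?_, funext fun y => ?_⟩
  · obtain ⟨n, hn⟩ := exists_nat_gt y
    refine (Gc n).continuousAt.congr ?_
    filter_upwards [Iio_mem_nhds hn] with z hz using (G3 n z (le_of_lt hz)).symm
  · rw [h1 _ _ _ (G3 ⌈y⌉₊) y (by linarith [Nat.le_ceil y]), ← Gs, ← G1 _ y (Nat.le_ceil y)]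

/-- the four generators -/
noncomputable def fam (g : ℝ → ℝ) : Fin 4 → ℝ → ℝ := ![g, fun x => x + 1 / 2, hh, ps]

lemma fam_cont {g : ℝ → ℝ} (hg : Continuous g) (i : Fin 4) : Continuous (fam g i) := by
  fin_cases i
  · exact hg
  · exact continuous_id.add continuous_const
  · exact hh_cont
  · show Continuous ps
    unfold ps; fun_prop

/-- evaluation of a polynomial in the generators -/
noncomputable def ev (g : ℝ → ℝ) (P : MvPolynomial (Fin 4) ℤ) (x : ℝ) : ℝ :=
  MvPolynomial.aeval (fun i => fam g i x) P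

lemma ev_cont {g : ℝ → ℝ} (hg : Continuous g) (P : MvPolynomial (Fin 4) ℤ) :
    Continuous (ev g P) := by
  unfold ev
  induction P using MvPolynomial.induction_on with
  | C a => simp only [MvPolynomial.aeval_C]; exact continuous_const
  | add p q hp hq => simp only [map_add]; exact hp.add hq
  | mul_X p i hp => simp only [map_mul, MvPolynomial.aeval_X]; exact hp.mul (fam_cont hg i)

lemma ev_congr {g g' : ℝ → ℝ} {x : ℝ} (h : g x = g' x) (P : MvPolynomial (Fin 4) ℤ) :
    ev g P x = ev g' P x := by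
  unfold ev
  congr 2
  funext i
  fin_cases i
  · exact h
  all_goals rfl

/-- data of one coded function -/
abbrev Data : Type := MvPolynomial (Fin 4) ℤ × MvPolynomial (Fin 4) ℤ × ℚ × ℕ × Bool

instance : Countable (MvPolynomial (Fin 4) ℤ) :=
  (AddMonoidAlgebra.coeffEquiv (R := ℤ) (M := Fin 4 →₀ ℕ)).injective.countable

/-- the coded function -/
noncomputable def cod (g : ℝ → ℝ) (D : Data) (x : ℝ) : ℝ :=
  wt (ev g D.1) (ev g D.2.1) D.2.2.1 D.2.2.2.2 (x - D.2.2.2.1 / 2)

lemma exists_g : ∃ g, Continuous g ∧ ∀ D : Data, ∃ j : ℕ, ∀ x,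
    ps x * g (hh x + j) = Ps x * cod g D x := by
  obtain ⟨e, he⟩ := exists_surjective_nat Data
  let A : (ℝ → ℝ) → ℕ → ℝ → ℝ := fun g j =>
    if ((e j.unpair.1).2.2.1 : ℝ) ≤ j then cod g (e j.unpair.1) else 0
  obtain ⟨g, hg, hg'⟩ := fixpt (fun g => pack (A g)) (fun g hg => pack_cont fun j => by
      simp only [A]
      split_ifs
      · exact (wt_cont (ev_cont hg _) (ev_cont hg _) _ _).comp (by fun_prop)
      · exact continuous_const)
    (fun g y hy => pack_zero _ hy) (fun g g' c h y hy => pack_congr hy fun j x hj hx => by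
      simp only [A]
      split_ifs with h1
      · have : (0 : ℝ) ≤ (e j.unpair.1).2.2.2.1 := Nat.cast_nonneg _
        exact wt_congr _ (h1.trans hj) (by linarith) (fun y hy => ev_congr (h y hy) _)
          fun y hy => ev_congr (h y hy) _
      · rfl)
  refine ⟨g, hg, fun D => ?_⟩
  obtain ⟨k, rfl⟩ := he D
  obtain ⟨n, hn⟩ := exists_nat_ge ((e k).2.2.1 : ℝ)
  refine ⟨k.pair n, fun x => ?_⟩
  have := decode (A g) (k.pair n) x
  rw [show pack (A g) = g from hg'] at this
  rw [this]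
  simp only [A, Nat.unpair_pair]
  rw [if_pos (hn.trans (by exact_mod_cast Nat.right_le_pair k n))]

lemma fold_rep (g : ℝ → ℝ) (n : ℕ) (x : ℝ) :
    (List.replicate n (1 : Fin 4)).foldr (fun j y => fam g j y) x = x + n / 2 := by
  induction n with
  | zero => simp
  | succ n ih =>
    rw [List.replicate_succ, List.foldr_cons, ih]
    show x + n / 2 + 1 / 2 = _
    push_cast; ring

/-- the decoding polynomial -/
noncomputable def dec (j : ℕ → ℕ) : MvPolynomial (Fin 4 × List (Fin 4)) ℤ :=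
  ∑ i ∈ Finset.range 4, MvPolynomial.X (3, List.replicate i 1) *
    MvPolynomial.X (0, List.replicate (2 * j i) 1 ++ 2 :: List.replicate i 1)

lemma dec_const (j : ℕ → ℕ) : MvPolynomial.constantCoeff (dec j) = 0 := by simp [dec]

lemma dec_eval (g : ℝ → ℝ) (j : ℕ → ℕ) (x : ℝ) :
    MvPolynomial.aeval (fun v : Fin 4 × List (Fin 4) =>
      fam g v.1 (v.2.foldr (fun j y => fam g j y) x)) (dec j) =
      ∑ i ∈ Finset.range 4, ps (x + i / 2) * g (hh (x + i / 2) + j i) := by
  simp only [dec, map_sum, map_mul, MvPolynomial.aeval_X, List.foldr_append, List.foldr_cons,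
    fold_rep]
  refine Finset.sum_congr rfl fun i _ => ?_
  show ps _ * g (hh _ + _) = _
  push_cast
  rw [mul_div_cancel_left₀ _ (two_ne_zero)]

theorem main : ∃ g, Continuous g ∧ ∀ (P Q : MvPolynomial (Fin 4) ℤ) (I : Set ℝ), IsOpen I →
    I.OrdConnected → I.Nonempty → (∀ x ∈ I, ev g Q x ≠ 0) →
    ∃ F : ℝ → ℝ, (∀ x ∈ I, HasDerivAt F (ev g P x / ev g Q x) x) ∧ ∃ j k : ℕ → ℕ, ∀ x ∈ I,
      MvPolynomial.aeval (fun v : Fin 4 × List (Fin 4) =>
        fam g v.1 (v.2.foldr (fun j y => fam g j y) x)) (dec k) ≠ 0 ∧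
      F x = MvPolynomial.aeval (fun v : Fin 4 × List (Fin 4) =>
        fam g v.1 (v.2.foldr (fun j y => fam g j y) x)) (dec j) /
        MvPolynomial.aeval (fun v : Fin 4 × List (Fin 4) =>
        fam g v.1 (v.2.foldr (fun j y => fam g j y) x)) (dec k) := by
  obtain ⟨g, hg, hg'⟩ := exists_g
  refine ⟨g, hg, fun P Q I h1 h2 h3 h4 => ?_⟩
  obtain ⟨a, ha⟩ := Rat.denseRange_cast.exists_mem_open h1 h3
  have hgood : ∀ x ∈ I, good (ev g Q) a x := fun x hx y hy => h4 y (h2.uIcc_subset ha hx hy)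
  choose J hJ using hg'
  refine ⟨prim (ev g P) (ev g Q) a, fun x hx => prim_deriv (ev_cont hg P) (ev_cont hg Q)
    (hgood x hx), fun i => J (P, Q, a, i, true), fun i => J (P, Q, a, i, false), fun x hx => ?_⟩
  have a0 : ∀ b, MvPolynomial.aeval (fun v : Fin 4 × List (Fin 4) =>
      fam g v.1 (v.2.foldr (fun j y => fam g j y) x)) (dec fun i => J (P, Q, a, i, b)) =
      (∑ i ∈ Finset.range 4, Ps (x + i / 2)) * (ev g Q x *
        ((if b then prim (ev g P) (ev g Q) a x else 1) / (1 + prim (ev g P) (ev g Q) a x ^ 2))) := by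
    intro b
    rw [dec_eval, Finset.sum_mul]
    refine Finset.sum_congr rfl fun i _ => ?_
    rw [hJ, cod, add_sub_cancel_right, wt, if_pos (hgood x hx)]
  rw [a0, a0]
  have a1 := (Ps_sum x).ne'
  have a2 := h4 x hx
  have a3 : 1 + prim (ev g P) (ev g Q) a x ^ 2 ≠ 0 := by positivity
  refine ⟨mul_ne_zero a1 (mul_ne_zero a2 (div_ne_zero (by simp) a3)), ?_⟩
  simp only [if_true, Bool.false_eq_true, if_false]
  generalize ∑ i ∈ Finset.range 4, Ps (x + i / 2) = s at a1
  field_simp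

end Pool.Agent.H.MP_75b936_an
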